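import Mathlib
import Pool.Agent.Results.MP_6e410e_gt.Willerton

namespace Pool.Agent.Results.MP_175a65_gt.CubicRange

open Function Finset
open scoped Classical
open Pool.Agent.Results.MP_6e410e_gt
open Pool.Agent.Results.MP_6e410e_gt.Willerton

/-! The knot diagrams, the Reidemeister moves and the invariant `v3` are those of the imported file.
Here the standard diagrams of the torus knots of type `(2, n)` are added. -/

/-- The shadow of the closed braid with two strands and `n` crossings. -/
def torNext (n : ℕ) [NeZero n] (x : Fin n × Bool) : Fin n × Bool := (x.1 + 1, !x.2)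

open Fin.CommRing in
theorem tor_iter (n : ℕ) [NeZero n] (m : ℕ) (x : Fin n × Bool) :
    (torNext n)^[2 * m] x = (x.1 + ((2 * m : ℕ) : Fin n), x.2) := by
  induction m with
  | zero => simp
  | succ m ih =>
    rw [show 2 * (m + 1) = (2 * m + 1) + 1 by ring, Function.iterate_succ_apply',
      Function.iterate_succ_apply', ih]
    simp only [torNext, Bool.not_not]
    push_cast
    ext <;> simp [add_assoc]

open Fin.CommRing in
theorem tor_one (n : ℕ) [NeZero n] (hn : Odd n) (x y : Fin n × Bool) :
    ∃ k : ℕ, (torNext n)^[k] x = y := by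
  -- shift within the same parity
  have key : ∀ (x : Fin n × Bool) (j : Fin n), ∃ k : ℕ, (torNext n)^[k] x = (j, x.2) := by
    intro x j
    obtain ⟨l, hl⟩ := hn
    let d : ℕ := (j - x.1 : Fin n).val
    refine ⟨2 * (d * (l + 1)), ?_⟩
    rw [tor_iter]
    have h1 : ((2 * (d * (l + 1)) : ℕ) : Fin n) = j - x.1 := by
      have h2 : 2 * (d * (l + 1)) = d * n + d := by rw [hl]; ring
      rw [h2]
      push_cast
      simp [d]
    rw [h1]
    simp
  by_cases h : x.2 = y.2
  · obtain ⟨k, hk⟩ := key x y.1
    exact ⟨k, by rw [hk, h]⟩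
  · obtain ⟨k, hk⟩ := key (torNext n x) y.1
    refine ⟨k + 1, ?_⟩
    rw [Function.iterate_succ_apply, hk]
    ext
    · rfl
    · simp only [torNext]
      revert h
      cases x.2 <;> cases y.2 <;> simp

/-- The region of a side in the diagram of the torus knot. -/
def torFwd (n : ℕ) (x : (Fin n × Bool) × Bool) : Fin n ⊕ Bool :=
  match x with
  | ((_, true), true) => Sum.inr true
  | ((_, false), false) => Sum.inr false
  | ((i, true), false) => Sum.inl i
  | ((i, false), true) => Sum.inl i

open Fin.CommRing in
/-- The diagram of the torus knot of type `(2, n)` has `n + 2` regions. -/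
def torRegions (n : ℕ) [NeZero n] : Region (torNext n) ≃ Fin n ⊕ Bool where
  toFun := Quot.lift (torFwd n) (by
    intro x y h
    obtain ⟨c, h⟩ := h
    cases h <;> rfl)
  invFun := fun r => match r with
    | Sum.inl i => Quot.mk _ ((i, true), false)
    | Sum.inr true => Quot.mk _ ((0, true), true)
    | Sum.inr false => Quot.mk _ ((0, false), false)
  left_inv := by
    intro q
    induction q using Quot.ind with
    | mk x =>
      obtain ⟨⟨i, b⟩, s⟩ := x
      have hL : ∀ i : Fin n, Quot.mk (fun x y => ∃ c, Quadrant (torNext n) c x y)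
          ((i + 1, true), true) = Quot.mk _ ((i, true), true) :=
        fun i => Quot.sound ⟨i, Quadrant.nw (next := torNext n)⟩
      have hR : ∀ i : Fin n, Quot.mk (fun x y => ∃ c, Quadrant (torNext n) c x y)
          ((i, false), false) = Quot.mk _ ((i + 1, false), false) :=
        fun i => Quot.sound ⟨i, Quadrant.se (next := torNext n)⟩
      have hL' : ∀ m : ℕ, Quot.mk (fun x y => ∃ c, Quadrant (torNext n) c x y)
          (((m : Fin n), true), true) = Quot.mk _ (((0 : Fin n), true), true) := by
        intro m
        induction m with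
        | zero => simp
        | succ m ih => push_cast; rw [hL, ih]
      have hR' : ∀ m : ℕ, Quot.mk (fun x y => ∃ c, Quadrant (torNext n) c x y)
          (((m : Fin n), false), false) = Quot.mk _ (((0 : Fin n), false), false) := by
        intro m
        induction m with
        | zero => simp
        | succ m ih => push_cast; rw [← hR, ih]
      have hi : ((i.val : ℕ) : Fin n) = i := Fin.cast_val_eq_self i
      cases b <;> cases s
      · have := hR' i.val
        rw [hi] at this
        exact this.symm
      · exact Quot.sound ⟨i, Quadrant.sw (next := torNext n)⟩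
      · rfl
      · have := hL' i.val
        rw [hi] at this
        exact this.symm
  right_inv := by
    rintro (i | b)
    · rfl
    · cases b <;> rfl

/-- The standard diagram of the torus knot of type `(2, n)` with `n` positive crossings. -/
def torusDiagram (n : ℕ) [NeZero n] (hn : Odd n) : KnotDiagram where
  C := Fin n
  finC := inferInstance
  next := torNext n
  one_component := tor_one n hn
  planar := fun _ => by rw [Nat.card_congr (torRegions n)]; simp
  sign := fun _ => true

/-- the position of a passage -/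
def torPos (n : ℕ) (x : Fin n × Bool) : ℕ :=
  if (decide (x.1.val % 2 = 0)) = x.2 then x.1.val else x.1.val + n

theorem tor_num (n : ℕ) [NeZero n] (hn : Odd n) (h3 : 1 < n) : Num (torNext n) (2 * n) (torPos n) := by
  obtain ⟨l, hl⟩ := hn
  refine ⟨?_, ?_, ?_⟩
  · intro x
    have := x.1.isLt
    unfold torPos
    split_ifs <;> omega
  · rintro ⟨i, b⟩ ⟨j, c⟩ h
    have hi := i.isLt
    have hj := j.isLt
    unfold torPos at h
    simp only at h
    have hij : i.val = j.val := by split_ifs at h <;> omega
    have hij' : i = j := Fin.ext hij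
    subst hij'
    congr 1
    split_ifs at h with h1 h2 h2
    · rw [← h1, ← h2]
    · omega
    · omega
    · revert h1 h2
      cases decide (i.val % 2 = 0) <;> cases b <;> cases c <;> simp
  · rintro ⟨i, b⟩
    have hi := i.isLt
    have hadd : (i + 1 : Fin n).val = if i.val + 1 = n then 0 else i.val + 1 := by
      rw [Fin.val_add]
      have h1 : ((1 : Fin n) : ℕ) = 1 := by
        rw [Fin.val_one']
        exact Nat.mod_eq_of_lt h3
      rw [h1]
      split_ifs with h
      · rw [h]; exact Nat.mod_self n
      · exact Nat.mod_eq_of_lt (by omega)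
    unfold torPos torNext
    simp only [hadd]
    by_cases h : i.val + 1 = n
    · simp only [h, if_true]
      have e : i.val % 2 = 0 := by omega
      cases b <;> simp [e] <;> omega
    · simp only [h, if_false]
      rcases Nat.mod_two_eq_zero_or_one i.val with e | e
      · have e' : (i.val + 1) % 2 = 1 := by omega
        cases b <;> simp [e, e'] <;> omega
      · have e' : (i.val + 1) % 2 = 0 := by omega
        cases b <;> simp [e, e'] <;> omega

theorem tor_dd (n : ℕ) [NeZero n] (hn : Odd n) (h3 : 1 < n) (a b : Fin n) (hab : a ≠ b) :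
    dd (torNext n) a b ^ 2 = 1 := by
  have hv : a.val ≠ b.val := fun h => hab (Fin.ext h)
  have ha := a.isLt
  have hb := b.isLt
  rw [dd_ne hab, chi_nc (tor_num n hn h3) (tor_one n hn) (by simpa using hab.symm),
    chi_nc (tor_num n hn h3) (tor_one n hn) (by simpa using hab.symm)]
  unfold torPos
  simp only
  rcases Nat.mod_two_eq_zero_or_one a.val with e | e <;>
  rcases Nat.mod_two_eq_zero_or_one b.val with e' | e' <;>
  simp only [e, e', nc_iff, decide_true, decide_false, if_true, if_false, Bool.true_eq_false,
    Bool.false_eq_true, one_ne_zero] <;> split_ifs <;> first | omega | norm_num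

theorem tor_value (n : ℕ) [NeZero n] (hn : Odd n) (h3 : 1 < n) :
    inv48 (torusDiagram n hn) = 2 * ((n : ℤ) * (n - 1) * (n - 2)) + 6 * ((n : ℤ) * (n - 1)) := by
  have h1 : inv48 (torusDiagram n hn) = Willerton.val (dd (torNext n)) (fun _ : Fin n => (1 : ℤ)) := by
    unfold inv48 Willerton.val
    refine @Fintype.sum_equiv (torusDiagram n hn).C (Fin n) ℤ _ _ _ (Equiv.refl (Fin n)) _ _
      (fun a => ?_)
    refine @Fintype.sum_equiv (torusDiagram n hn).C (Fin n) ℤ _ _ _ (Equiv.refl (Fin n)) _ _
      (fun b => ?_)
    exact @Fintype.sum_equiv (torusDiagram n hn).C (Fin n) ℤ _ _ _ (Equiv.refl (Fin n)) _ _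
      (fun c => rfl)
  rw [h1]
  have hterm : ∀ a b c : Fin n, 2 * fT (dd (torNext n)) (fun _ => (1 : ℤ)) a b c +
      3 * fQ (dd (torNext n)) (fun _ => (1 : ℤ)) a b c =
      2 * (if a = b ∨ b = c ∨ c = a then (0 : ℤ) else 1) +
      6 * (if b = c then (if a = b then 0 else 1) else 0) := by
    intro a b c
    unfold fT fQ
    by_cases hbc : b = c
    · subst hbc
      by_cases hab : a = b
      · subst hab
        simp [dd_self]
      · have e1 := tor_dd n hn h3 a b hab
        have e2 := tor_dd n hn h3 b a (Ne.symm hab)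
        have e3 : dd (torNext n) a b * dd (torNext n) a b = 1 := by rw [← pow_two]; exact e1
        rw [e1, e2, e3]
        simp [dd_self, hab]
    · have e1 := tor_dd n hn h3 b c hbc
      by_cases hab : a = b
      · subst hab
        rw [e1]
        simp [dd_self, hbc]
      · by_cases hca : c = a
        · subst hca
          have e2 := tor_dd n hn h3 b c hbc
          rw [e2]
          simp [dd_self, hbc]
        · have e2 := tor_dd n hn h3 a b hab
          have e3 := tor_dd n hn h3 c a hca
          rw [e1, e2, e3]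
          simp [hab, hbc, hca]
  unfold Willerton.val
  simp only [hterm, Finset.sum_add_distrib, ← Finset.mul_sum]
  have h6 : ∑ a : Fin n, ∑ b : Fin n, ∑ c : Fin n,
      (if a = b ∨ b = c ∨ c = a then (0 : ℤ) else 1) = (n : ℤ) * (n - 1) * (n - 2) := by
    have h7 := count3 (C := Fin n)
    rw [Fintype.card_fin] at h7
    convert h7
  rw [h6]
  have h4 : ∑ a : Fin n, ∑ b : Fin n, ∑ c : Fin n,
      (if b = c then (if a = b then (0 : ℤ) else 1) else 0) = (n : ℤ) * (n - 1) := by
    have h5 : ∀ a b : Fin n, (if a = b then (0 : ℤ) else 1) = 1 - (if a = b then 1 else 0) := by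
      intro a b; split_ifs <;> rfl
    simp only [Finset.sum_ite_eq, Finset.mem_univ, if_true, h5, Finset.sum_sub_distrib,
      Finset.sum_const, Finset.card_univ, nsmul_eq_mul, mul_one, Fintype.card_fin]
    ring
  rw [h4]

/-- Let `v` be the Vassiliev invariant of degree three. The values `v / n ^ 3` of all diagrams with
`n` crossings lie strictly between `-1/24` and `1/24`, and they come arbitrarily close to both
ends. -/
theorem result : ∃ v : KnotDiagram → ℝ,
    (∀ D D' : KnotDiagram, Move D D' → v D = v D') ∧
    (∀ (D : KnotDiagram) (A : Finset D.C), A.card = 4 → singularValue v D A = 0) ∧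
    (∀ D : KnotDiagram, v D.mirror = - v D) ∧
    v rightTrefoil = 1 ∧
    (∀ D : KnotDiagram, 1 ≤ Nat.card D.C →
      v D / (Nat.card D.C : ℝ) ^ 3 ∈ Set.Ioo (-1 / 24 : ℝ) (1 / 24)) ∧
    (∀ δ : ℝ, 0 < δ → ∃ D : KnotDiagram, 1 ≤ Nat.card D.C ∧
      1 / 24 - δ < v D / (Nat.card D.C : ℝ) ^ 3 ∧
      v D.mirror / (Nat.card D.mirror.C : ℝ) ^ 3 < - 1 / 24 + δ) := by
  refine ⟨v3, ?_, v3_degree, v3_mirror, v3_trefoil, ?_, ?_⟩
  · intro D D' h
    unfold v3
    rw [inv48_move D D' h]
  · intro D hn
    have h1 := v3_bound D
    have h2 := Int.floor_le ((Nat.card D.C : ℝ) * ((Nat.card D.C : ℝ) ^ 2 - 1) / 24)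
    have hn' : (1 : ℝ) ≤ (Nat.card D.C : ℝ) := by exact_mod_cast hn
    set n : ℝ := (Nat.card D.C : ℝ)
    have hpos : 0 < n ^ 3 := by positivity
    have h3 : |v3 D| ≤ n * (n ^ 2 - 1) / 24 := h1.trans h2
    have h4 : n * (n ^ 2 - 1) / 24 < n ^ 3 / 24 := by nlinarith
    obtain ⟨h5, h6⟩ := abs_lt.1 (lt_of_le_of_lt h3 h4)
    constructor
    · rw [lt_div_iff₀ hpos]; linarith
    · rw [div_lt_iff₀ hpos]; linarith
  · intro δ hδ
    obtain ⟨k, hk⟩ := exists_nat_gt (1 / δ)
    have hk0 : (0 : ℝ) < k := lt_trans (by positivity) hk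
    have hk1 : 1 ≤ k := by
      by_contra h
      have : k = 0 := by omega
      rw [this] at hk0
      simp at hk0
    let n : ℕ := 2 * k + 1
    have hn : Odd n := ⟨k, rfl⟩
    have : NeZero n := ⟨by omega⟩
    have h3 : 1 < n := by omega
    have hval : v3 (torusDiagram n hn) = (n : ℝ) * ((n : ℝ) ^ 2 - 1) / 24 := by
      unfold v3
      rw [tor_value n hn h3]
      push_cast
      ring
    have hcard : Nat.card (torusDiagram n hn).C = n := by
      change Nat.card (Fin n) = n
      simp
    have hcard' : Nat.card (torusDiagram n hn).mirror.C = n := hcard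
    have hnk : (k : ℝ) ≤ n := by
      have : k ≤ n := by omega
      exact_mod_cast this
    have hn0 : (0 : ℝ) < n := lt_of_lt_of_le hk0 hnk
    have hδn : 1 / (24 * (n : ℝ) ^ 2) < δ := by
      rw [div_lt_iff₀ (by positivity)]
      have h6 : 1 < δ * k := by
        rw [div_lt_iff₀ hδ] at hk
        linarith
      have h7 : (1 : ℝ) ≤ n := by
        have : 1 ≤ n := by omega
        exact_mod_cast this
      have h8 : δ * k ≤ δ * n := mul_le_mul_of_nonneg_left hnk hδ.le
      nlinarith [mul_nonneg hδ.le (sub_nonneg.2 h7), mul_pos hδ hn0]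
    have hq : (n : ℝ) * ((n : ℝ) ^ 2 - 1) / 24 / (n : ℝ) ^ 3 = 1 / 24 - 1 / (24 * (n : ℝ) ^ 2) := by
      field_simp
    refine ⟨torusDiagram n hn, by rw [hcard]; omega, ?_, ?_⟩
    · rw [hcard, hval, hq]; linarith
    · rw [hcard', v3_mirror, hval, neg_div, hq]; linarith

end Pool.Agent.Results.MP_175a65_gt.CubicRange
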